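import Pool.Agent.Helper65.RP.Defs

/-!
# From ultrafilters to arithmetic progressions
-/

set_option autoImplicit false

namespace Pool.Agent.Helper39.RP

open Pool.Agent.Helper65.RP Filter

/-- finite unions of progressions -/
def IsAP (S : Set ℕ) : Prop :=
  ∃ T : Finset (ℕ × ℕ), S = {n : ℕ | ∃ q ∈ T, ∃ k : ℕ, n = q.1 * k + q.2}

theorem IsAP.union {S S' : Set ℕ} (h : IsAP S) (h' : IsAP S') : IsAP (S ∪ S') := by
  classical
  obtain ⟨T, rfl⟩ := h
  obtain ⟨T', rfl⟩ := h'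
  refine ⟨T ∪ T', ?_⟩
  ext n
  simp only [Set.mem_union, Set.mem_ofPred_eq, Finset.mem_union]
  constructor
  · rintro (⟨q, hq, k, hk⟩ | ⟨q, hq, k, hk⟩)
    · exact ⟨q, Or.inl hq, k, hk⟩
    · exact ⟨q, Or.inr hq, k, hk⟩
  · rintro ⟨q, hq | hq, k, hk⟩
    · exact Or.inl ⟨q, hq, k, hk⟩
    · exact Or.inr ⟨q, hq, k, hk⟩

theorem IsAP.of_finite {S : Set ℕ} (h : S.Finite) : IsAP S := by
  classical
  refine ⟨h.toFinset.image fun n => (0, n), ?_⟩
  ext n
  simp only [Set.mem_ofPred_eq, Finset.mem_image, Set.Finite.mem_toFinset]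
  constructor
  · intro hn
    exact ⟨(0, n), ⟨n, hn, rfl⟩, 0, by simp⟩
  · rintro ⟨q, ⟨a, ha, rfl⟩, k, hk⟩
    simp only [zero_mul, zero_add] at hk
    rw [hk]
    exact ha

theorem IsAP.of_add {M : Set ℕ} {k : ℕ} (hk : 1 ≤ k) (h : ∀ n ∈ M, n + k ∈ M) : IsAP M := by
  classical
  have hadd : ∀ j n, n ∈ M → n + k * j ∈ M := by
    intro j
    induction j with
    | zero => intro n hn; simpa using hn
    | succ j ih =>
      intro n hn
      have := h _ (ih n hn)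
      have e : n + k * (j + 1) = n + k * j + k := by ring
      rw [e]
      exact this
  refine ⟨(Finset.range k).biUnion fun r =>
    if hr : ∃ n, n ∈ M ∧ n % k = r then {(k, Nat.find hr)} else ∅, ?_⟩
  ext n
  simp only [Set.mem_ofPred_eq, Finset.mem_biUnion, Finset.mem_range]
  constructor
  · intro hn
    have hr : ∃ a, a ∈ M ∧ a % k = n % k := ⟨n, hn, rfl⟩
    have h1 := (Nat.find_spec hr).2
    have h2 : Nat.find hr ≤ n := Nat.find_min' hr ⟨hn, rfl⟩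
    refine ⟨(k, Nat.find hr), ⟨n % k, Nat.mod_lt _ hk, ?_⟩, (n - Nat.find hr) / k, ?_⟩
    · rw [dif_pos hr]
      exact Finset.mem_singleton_self _
    · have h3 : k ∣ n - Nat.find hr := by
        have : Nat.find hr ≡ n [MOD k] := h1
        exact (Nat.modEq_iff_dvd' h2).mp this
      show n = k * ((n - Nat.find hr) / k) + Nat.find hr
      rw [Nat.mul_div_cancel' h3]
      omega
  · rintro ⟨q, ⟨r, _, hq⟩, j, hj⟩
    by_cases hr : ∃ n, n ∈ M ∧ n % k = r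
    · rw [dif_pos hr, Finset.mem_singleton] at hq
      rw [hq] at hj
      simp only at hj
      rw [hj, add_comm]
      exact hadd _ _ (Nat.find_spec hr).1
    · rw [dif_neg hr] at hq
      simp at hq

/-- invariant subsets -/
def Good (N M : Set ℕ) : Prop := M ⊆ N ∧ ∃ k, 1 ≤ k ∧ ∀ n ∈ M, n + k ∈ M

theorem Good.empty (N : Set ℕ) : Good N ∅ := ⟨Set.empty_subset _, 1, le_rfl, by simp⟩

theorem Good.union {N M M' : Set ℕ} (h : Good N M) (h' : Good N M') : Good N (M ∪ M') := by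
  obtain ⟨h1, k, hk, h2⟩ := h
  obtain ⟨h1', k', hk', h2'⟩ := h'
  refine ⟨Set.union_subset h1 h1', k * k', Nat.mul_pos hk hk', ?_⟩
  have hadd : ∀ (A : Set ℕ) (a : ℕ), (∀ n ∈ A, n + a ∈ A) → ∀ j n, n ∈ A → n + a * j ∈ A := by
    intro A a hA j
    induction j with
    | zero => intro n hn; simpa using hn
    | succ j ih =>
      intro n hn
      have := hA _ (ih n hn)
      have e : n + a * (j + 1) = n + a * j + a := by ring
      rw [e]
      exact this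
  rintro n (hn | hn)
  · exact Or.inl (hadd M k h2 k' n hn)
  · right
    rw [mul_comm]
    exact hadd M' k' h2' k n hn

/-- the filter of the sets that contain almost all elements outside an invariant subset -/
def fil (N : Set ℕ) : Filter ℕ where
  sets := {S | ∃ M, Good N M ∧ ((N \ M) \ S).Finite}
  univ_sets := ⟨∅, Good.empty N, by simp⟩
  sets_of_superset := by
    rintro S S' ⟨M, hM, h⟩ hS
    exact ⟨M, hM, h.subset fun n hn => ⟨hn.1, fun hn' => hn.2 (hS hn')⟩⟩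
  inter_sets := by
    rintro S S' ⟨M, hM, h⟩ ⟨M', hM', h'⟩
    refine ⟨M ∪ M', hM.union hM', (h.union h').subset ?_⟩
    rintro n ⟨⟨hn, hn1⟩, hn2⟩
    by_cases hS : n ∈ S
    · exact Or.inr ⟨⟨hn, fun h => hn1 (Or.inr h)⟩, fun h => hn2 ⟨hS, h⟩⟩
    · exact Or.inl ⟨⟨hn, fun h => hn1 (Or.inl h)⟩, hS⟩

theorem mem_fil {N S : Set ℕ} : S ∈ fil N ↔ ∃ M, Good N M ∧ ((N \ M) \ S).Finite := Iff.rfl

/-- J -/
theorem ap_of_ultra (𝒩 : Set ℕ) (h : ∀ 𝒰 : Ultrafilter ℕ, (𝒰 : Filter ℕ) ≤ atTop → 𝒩 ∈ 𝒰 →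
      ∃ M ⊆ 𝒩, M ∈ 𝒰 ∧ ∃ k, 1 ≤ k ∧ ∀ n ∈ M, n + k ∈ M) :
    ∃ T : Finset (ℕ × ℕ), 𝒩 = {n : ℕ | ∃ q ∈ T, ∃ k : ℕ, n = q.1 * k + q.2} := by
  by_cases hb : (fil 𝒩).NeBot
  · exfalso
    have hle : (Ultrafilter.of (fil 𝒩) : Filter ℕ) ≤ fil 𝒩 := Ultrafilter.of_le _
    have h1 : (Ultrafilter.of (fil 𝒩) : Filter ℕ) ≤ atTop := by
      refine hle.trans ?_
      intro S hS
      rw [← Nat.cofinite_eq_atTop, mem_cofinite] at hS
      exact mem_fil.mpr ⟨∅, Good.empty 𝒩, hS.subset fun n hn => hn.2⟩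
    have h2 : 𝒩 ∈ Ultrafilter.of (fil 𝒩) := by
      refine hle (mem_fil.mpr ⟨∅, Good.empty 𝒩, ?_⟩)
      have e : (𝒩 \ ∅) \ 𝒩 = ∅ := by
        ext n
        simp
      rw [e]
      exact Set.finite_empty
    obtain ⟨M, hM, hMU, k, hk, hMk⟩ := h _ h1 h2
    have h3 : Mᶜ ∈ Ultrafilter.of (fil 𝒩) := by
      refine hle (mem_fil.mpr ⟨M, ⟨hM, k, hk, hMk⟩, ?_⟩)
      have e : (𝒩 \ M) \ Mᶜ = ∅ := by
        ext n
        simp
      rw [e]
      exact Set.finite_empty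
    exact (Ultrafilter.compl_mem_iff_notMem.mp h3) hMU
  · rw [not_neBot] at hb
    have h1 : (∅ : Set ℕ) ∈ fil 𝒩 := by
      rw [hb]
      exact mem_bot
    obtain ⟨M, ⟨hM, k, hk, hMk⟩, hf⟩ := mem_fil.mp h1
    rw [Set.sdiff_empty] at hf
    have h2 := (IsAP.of_add hk hMk).union (IsAP.of_finite hf)
    rw [Set.union_sdiff_cancel hM] at h2
    exact h2

end Pool.Agent.Helper39.RP
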