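import Pool.Agent.Helper65.RP.Defs2
import Pool.Agent.Helper65.RP.Ord
import Pool.Agent.Helper63.RP.Dim
import Pool.Agent.Helper62.RP.Lower

/-!
# Subquadratic growth implies finitely many primes
-/

set_option autoImplicit false

namespace Pool.Agent.Helper39.RP

open MvPolynomial Filter Topology
open Pool.Agent.Helper65.RP

section
variable {K : Type} [Field K] {N : ℕ}

/-- Larger ideals have smaller dimensions. -/
theorem rho_mono_ideal {I J : Ideal (MvPolynomial (Fin N) K)} (h : I ≤ J) (D : ℕ) :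
    rho J D ≤ rho I D := by
  have hfin := Pool.Agent.Helper62.RP.finite_restrict K N D
  have : Module.Finite K ((restrictTotalDegree (Fin N) K D).map
      (Ideal.Quotient.mkₐ K I).toLinearMap) := Module.Finite.map _ _
  have h1 := Submodule.finrank_map_le (Ideal.Quotient.factorₐ K h).toLinearMap
    ((restrictTotalDegree (Fin N) K D).map (Ideal.Quotient.mkₐ K I).toLinearMap)
  rw [← Submodule.map_comp] at h1
  exact h1

/-- Quadratic growth. -/
theorem quad_growth {Q P : Ideal (MvPolynomial (Fin N) K)} (hQ : Q.IsPrime) (hQP : Q ≤ P)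
    (hP1 : P ≠ ⊤) {g : MvPolynomial (Fin N) K} (hgP : g ∈ P) (hgQ : g ∉ Q) (i₀ : Fin N)
    (hP : ∀ p : Polynomial K, p ≠ 0 → Polynomial.aeval (X i₀ : MvPolynomial (Fin N) K) p ∉ P) :
    1 ≤ g.totalDegree ∧ ∀ D : ℕ, D ^ 2 ≤ 4 * g.totalDegree * rho Q D := by
  have he : 1 ≤ g.totalDegree := by
    by_contra hcon
    have h0 : g.totalDegree = 0 := by omega
    rw [totalDegree_eq_zero_iff_eq_C] at h0
    have hne : g.coeff 0 ≠ 0 := by
      intro h1
      rw [h1, C_0] at h0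
      rw [h0] at hgQ
      exact hgQ Q.zero_mem
    apply hP1
    rw [Ideal.eq_top_iff_one]
    have h2 : (1 : MvPolynomial (Fin N) K) = C (g.coeff 0)⁻¹ * g := by
      rw [h0, coeff_C, if_pos rfl, ← C_mul, inv_mul_cancel₀ hne, C_1]
    rw [h2]
    exact P.mul_mem_left _ hgP
  refine ⟨he, fun D => ?_⟩
  have hmul : ∀ G, g * G ∈ Q → G ∈ Q := fun G hG => (hQ.mem_or_mem hG).resolve_left hgQ
  induction D using Nat.strong_induction_on with
  | _ D ih =>
    rcases lt_or_ge D g.totalDegree with h | h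
    · have h1 := Pool.Agent.Helper63.RP.le_rho Q i₀ (fun p hp hq => hP p hp (hQP hq)) D
      nlinarith
    · obtain ⟨D', rfl⟩ : ∃ D', D = D' + g.totalDegree := ⟨D - g.totalDegree, by omega⟩
      have h1 := Pool.Agent.Helper63.RP.rho_add_le Q P hQP g hgP hmul D'
      have h2 := Pool.Agent.Helper63.RP.le_rho P i₀ hP (D' + g.totalDegree)
      have h3 := ih D' (by omega)
      have h4 : D' + g.totalDegree + 1 + rho Q D' ≤ rho Q (D' + g.totalDegree) := by omega
      have h5 : 4 * g.totalDegree * (D' + g.totalDegree + 1 + rho Q D')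
          ≤ 4 * g.totalDegree * rho Q (D' + g.totalDegree) := Nat.mul_le_mul_left _ h4
      nlinarith
end

/-- N4b -/
theorem finite_levels {K : Type} [Field K] {N : ℕ} {𝒰 : Ultrafilter ℕ}
    (z : ℕ → ℕ → Fin N → K) (i₀ : Fin N)
    (htr : ∀ (m : ℕ) (p : Polynomial K), p ≠ 0 →
      ∀ᶠ n in (𝒰 : Filter ℕ), p.eval (z m n i₀) ≠ 0)
    (hgr : ∀ ε : ℝ, 0 < ε → ∃ D m₁ : ℕ, 1 ≤ D ∧
      (rho (⨅ m : {m : ℕ // m₁ ≤ m}, van 𝒰 (z m)) D : ℝ) ≤ ε * D ^ 2) :
    ∃ m m' : ℕ, m < m' ∧ van 𝒰 (z m) = van 𝒰 (z m') := by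
  classical
  -- the increasing sequence of ideals
  obtain ⟨J, hJ⟩ : ∃ J : ℕ → Ideal (MvPolynomial (Fin N) K),
      J = fun m₁ => ⨅ m : {m : ℕ // m₁ ≤ m}, van 𝒰 (z m) := ⟨_, rfl⟩
  have hJle : ∀ m₁ m, m₁ ≤ m → J m₁ ≤ van 𝒰 (z m) := by
    intro m₁ m h
    rw [hJ]
    exact iInf_le (fun m : {m : ℕ // m₁ ≤ m} => van 𝒰 (z m)) ⟨m, h⟩
  have hJmono : Monotone J := by
    intro a b hab
    rw [hJ]
    refine le_iInf fun m => ?_
    exact iInf_le (fun m : {m : ℕ // a ≤ m} => van 𝒰 (z m)) ⟨m.1, hab.trans m.2⟩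
  obtain ⟨M, hM⟩ := monotone_stabilizes_iff_noetherian.mpr
    (inferInstance : IsNoetherianRing (MvPolynomial (Fin N) K)) ⟨J, hJmono⟩
  have hJM : ∀ m₁, J m₁ ≤ J M := by
    intro m₁
    rcases le_total M m₁ with h | h
    · exact (hM m₁ h).ge
    · exact hJmono h
  have htrP : ∀ m (p : Polynomial K), p ≠ 0 →
      Polynomial.aeval (X i₀ : MvPolynomial (Fin N) K) p ∉ van 𝒰 (z m) := by
    intro m p hp hmem
    rw [mem_van] at hmem
    obtain ⟨n, h1, h2⟩ := (hmem.and (htr m p hp)).exists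
    apply h2
    rw [← h1, Polynomial.aeval_def, Polynomial.hom_eval₂, eval_X, Polynomial.eval_eq_sum,
      Polynomial.eval₂_eq_sum]
    refine Finset.sum_congr rfl fun k _ => ?_
    simp [MvPolynomial.algebraMap_eq]
  -- minimality
  have hmin : ∀ m, M ≤ m → van 𝒰 (z m) ∈ (J M).minimalPrimes := by
    intro m hm
    refine ⟨⟨van_isPrime 𝒰 (z m), hJle M m hm⟩, ?_⟩
    rintro Q ⟨hQ, hJQ⟩ hQP
    by_contra hcon
    obtain ⟨g, hgP, hgQ⟩ : ∃ g, g ∈ van 𝒰 (z m) ∧ g ∉ Q := Set.not_subset.mp hcon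
    obtain ⟨he, hq⟩ := quad_growth hQ hQP (van_isPrime 𝒰 (z m)).ne_top hgP hgQ i₀ (htrP m)
    have hepos : (0 : ℝ) < g.totalDegree := by exact_mod_cast (by omega : 0 < g.totalDegree)
    obtain ⟨D, m₁, hD, hle⟩ := hgr (1 / (8 * g.totalDegree)) (by positivity)
    have h1 : rho Q D ≤ rho (J m₁) D := rho_mono_ideal ((hJM m₁).trans hJQ) D
    have h2 : ((rho (J m₁) D : ℕ) : ℝ) ≤ 1 / (8 * g.totalDegree) * D ^ 2 := by
      rw [hJ]
      exact hle
    have h3 : ((D : ℝ)) ^ 2 ≤ 4 * g.totalDegree * rho Q D := by exact_mod_cast hq D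
    have h4 : ((rho Q D : ℕ) : ℝ) ≤ 1 / (8 * g.totalDegree) * D ^ 2 :=
      le_trans (by exact_mod_cast h1) h2
    have h5 : 4 * (g.totalDegree : ℝ) * rho Q D
        ≤ 4 * g.totalDegree * (1 / (8 * g.totalDegree) * D ^ 2) := by gcongr
    have h6 : 4 * (g.totalDegree : ℝ) * (1 / (8 * g.totalDegree) * D ^ 2) = (D : ℝ) ^ 2 / 2 := by
      field_simp
      ring
    have h7 : (0 : ℝ) < (D : ℝ) ^ 2 := by
      have : (0 : ℝ) < D := by exact_mod_cast (by omega : 0 < D)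
      positivity
    linarith
  -- pigeonhole
  have hfin : ((J M).minimalPrimes).Finite := Ideal.finite_minimalPrimes_of_isNoetherianRing _ _
  obtain ⟨x, -, y, -, hxy, hval⟩ := Set.infinite_univ.exists_ne_map_eq_of_mapsTo
    (f := fun k : ℕ => van 𝒰 (z (M + k))) (t := (J M).minimalPrimes)
    (fun k _ => hmin (M + k) (Nat.le_add_right M k)) hfin
  rcases lt_or_gt_of_ne hxy with h | h
  · exact ⟨M + x, M + y, by omega, hval⟩
  · exact ⟨M + y, M + x, by omega, hval.symm⟩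

end Pool.Agent.Helper39.RP
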